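import Pool.Agent.H61.NVK.TargetsE1

/-!
# Row E_EPQ: a linear change of the vector
-/

set_option autoImplicit false

open MeasureTheory Set Filter NumberField NumberField.InfinitePlace
open Pool.Agent.H65.CM4 Pool.Agent.H61.CM4 Pool.Agent.H61.NVK
open scoped Real nonZeroDivisors

namespace Pool.Agent.H33.NVE_EPQ

section

variable {k : Type} [Field k] [NumberField k]

section Real

variable [IsTotallyReal k]

omit [NumberField k] in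
theorem abs_rv (v : Pl k) (x : k) : |rv v x| = v x := by
  unfold rv
  rw [← Real.norm_eq_abs]
  exact InfinitePlace.norm_embedding_of_isReal (IsTotallyReal.isReal v) x

theorem prod_rv (x : k) : ∏ v : Pl k, |rv v x| = |((Algebra.norm ℚ x : ℚ) : ℝ)| := by
  have h := InfinitePlace.prod_eq_abs_norm x
  rw [← Rat.cast_abs, ← h]
  refine Finset.prod_congr rfl fun v _ => ?_
  rw [IsTotallyReal.mult_eq, pow_one, abs_rv]

theorem prod_unit (u : (𝓞 k)ˣ) : ∏ v : Pl k, |rv v ((u : 𝓞 k) : k)| = 1 := by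
  rw [prod_rv, ← Algebra.coe_norm_int]
  have h1 : IsUnit (Algebra.norm ℤ (u : 𝓞 k)) := u.isUnit.map _
  rcases Int.isUnit_iff.1 h1 with h | h
  · rw [h]
    norm_num
  · rw [h]
    norm_num

theorem prod_unit_sq (u : (𝓞 k)ˣ) : ∏ v : Pl k, rv v ((u : 𝓞 k) : k) ^ 2 = 1 := by
  have h : ∏ v : Pl k, rv v ((u : 𝓞 k) : k) ^ 2 = (∏ v : Pl k, |rv v ((u : 𝓞 k) : k)|) ^ 2 := by
    rw [← Finset.prod_pow]
    refine Finset.prod_congr rfl fun v _ => ?_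
    rw [sq_abs]
  rw [h, prod_unit, one_pow]

theorem qd_unit (b D : Pl k → ℝ) (η : (𝓞 k)ˣ) (u : V2 k) :
    qd b D ((η : 𝓞 k) • u) = qd b D u := by
  unfold qd
  rw [← one_mul (∏ v : Pl k, ((rv v (u.1 : k) + rv v (u.2 : k) * b v / 2) ^ 2 +
    D v * rv v (u.2 : k) ^ 2 / 4)), ← prod_unit_sq η, ← Finset.prod_mul_distrib]
  refine Finset.prod_congr rfl fun v _ => ?_
  have h1 : (((η : 𝓞 k) • u).1 : k) = ((η : 𝓞 k) : k) * (u.1 : k) := by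
    simp
  have h2 : (((η : 𝓞 k) • u).2 : k) = ((η : 𝓞 k) : k) * (u.2 : k) := by
    simp
  rw [h1, h2, map_mul, map_mul]
  ring

end Real

theorem mkE (hFOR : T_FOR) (M : La k) (φ ψ : V2 k → V2 k) (h1 : ∀ u, ψ (φ u) = u)
    (h2 : ∀ u, φ (ψ u) = u) (hl : ∀ (c : 𝓞 k) (u : V2 k), φ (c • u) = c • φ u)
    (hl' : ∀ (c : 𝓞 k) (u : V2 k), ψ (c • u) = c • ψ u)
    (hM : ∀ u ∈ M, φ u ∈ M) (hM' : ∀ u ∈ M, ψ u ∈ M) :
    ∃ e : {u : V2 k // u ∈ M ∧ u ∈ Fo k} ≃ {u : V2 k // u ∈ M ∧ u ∈ Fo k},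
      ∀ u : {u : V2 k // u ∈ M ∧ u ∈ Fo k}, ∃ η : (𝓞 k)ˣ,
        (η : 𝓞 k) • ((e u : {u : V2 k // u ∈ M ∧ u ∈ Fo k}) : V2 k) = φ (u : V2 k) := by
  obtain ⟨hF0, hFs, hFu⟩ := hFOR k
  have hP0 : ∀ w : V2 k, ∃ p : (𝓞 k)ˣ × V2 k, w ≠ 0 → (p.2 ∈ Fo k ∧ p.1 • p.2 = w) := by
    intro w
    by_cases hw : w = 0
    · exact ⟨(1, 0), fun h => absurd hw h⟩
    · obtain ⟨p, hp, -⟩ := hFu w hw
      exact ⟨p, fun _ => hp⟩
  choose P hP using hP0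
  have huniq : ∀ (w : V2 k) (η : (𝓞 k)ˣ) (u : V2 k), w ≠ 0 → u ∈ Fo k → η • u = w →
      (P w).2 = u := by
    intro w η u hw hu he
    obtain ⟨p, hp, hq⟩ := hFu w hw
    have e1 := hq (P w) (hP w hw)
    have e2 := hq (η, u) ⟨hu, he⟩
    rw [e1, ← e2]
  have hφz : φ 0 = 0 := by
    have h := hl 0 0
    rwa [zero_smul, zero_smul] at h
  have hψz : ψ 0 = 0 := by
    have h := hl' 0 0
    rwa [zero_smul, zero_smul] at h
  have hφ0 : ∀ u, u ≠ 0 → φ u ≠ 0 := by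
    intro u hu h
    apply hu
    rw [← h1 u, h, hψz]
  have hψ0 : ∀ u, u ≠ 0 → ψ u ≠ 0 := by
    intro u hu h
    apply hu
    rw [← h2 u, h, hφz]
  have hPM : ∀ w : V2 k, w ≠ 0 → w ∈ M → (P w).2 ∈ M := by
    intro w hw hwM
    have h := (hP w hw).2
    have h3 : (P w).2 = (((P w).1⁻¹ : (𝓞 k)ˣ) : 𝓞 k) • w :=
      calc (P w).2 = (P w).1⁻¹ • ((P w).1 • (P w).2) := (inv_smul_smul _ _).symm
        _ = (P w).1⁻¹ • w := by rw [h]
        _ = _ := hFs _ _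
    rw [h3]
    exact M.smul_mem _ hwM
  have hback : ∀ (φ ψ : V2 k → V2 k), (∀ u, ψ (φ u) = u) →
      (∀ (c : 𝓞 k) (u : V2 k), ψ (c • u) = c • ψ u) →
      (∀ u, u ≠ 0 → φ u ≠ 0) → (∀ u, u ≠ 0 → ψ u ≠ 0) →
      ∀ u : V2 k, u ∈ Fo k → (P (ψ (P (φ u)).2)).2 = u := by
    intro φ ψ h1 hl' hφ0 hψ0 u hu
    have hu0 := hF0 u hu
    obtain ⟨h3, h4⟩ := hP (φ u) (hφ0 u hu0)
    have h6 : (P (φ u)).2 = (((P (φ u)).1⁻¹ : (𝓞 k)ˣ) : 𝓞 k) • φ u :=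
      calc (P (φ u)).2 = (P (φ u)).1⁻¹ • ((P (φ u)).1 • (P (φ u)).2) := (inv_smul_smul _ _).symm
        _ = (P (φ u)).1⁻¹ • φ u := by rw [h4]
        _ = _ := hFs _ _
    have h5 : ψ (P (φ u)).2 = (P (φ u)).1⁻¹ • u :=
      calc ψ (P (φ u)).2 = ψ ((((P (φ u)).1⁻¹ : (𝓞 k)ˣ) : 𝓞 k) • φ u) := congrArg ψ h6
        _ = (((P (φ u)).1⁻¹ : (𝓞 k)ˣ) : 𝓞 k) • u := by rw [hl', h1]
        _ = _ := (hFs _ _).symm
    exact huniq _ ((P (φ u)).1⁻¹) u (hψ0 _ (hF0 _ h3)) hu h5.symm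
  refine ⟨⟨fun u => ⟨(P (φ u)).2, hPM _ (hφ0 _ (hF0 _ u.2.2)) (hM _ u.2.1),
      (hP _ (hφ0 _ (hF0 _ u.2.2))).1⟩,
    fun u => ⟨(P (ψ u)).2, hPM _ (hψ0 _ (hF0 _ u.2.2)) (hM' _ u.2.1),
      (hP _ (hψ0 _ (hF0 _ u.2.2))).1⟩, ?_, ?_⟩, ?_⟩
  · intro u
    exact Subtype.ext (hback φ ψ h1 hl' hφ0 hψ0 u u.2.2)
  · intro u
    exact Subtype.ext (hback ψ φ h2 hl hψ0 hφ0 u u.2.2)
  · intro u
    refine ⟨(P (φ u)).1, ?_⟩
    rw [← hFs]
    exact (hP _ (hφ0 _ (hF0 _ u.2.2))).2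

end

theorem pf_EPQ (hFOR : T_FOR) : T_EPQ := by
  intro k _ _ _ a B r ε hr
  obtain ⟨e, he⟩ := mkE hFOR (Lb (a : Ideal (𝓞 k)) B)
    (fun u => (u.1 + r * u.2, (ε : 𝓞 k) * u.2))
    (fun u => (u.1 - r * (((ε⁻¹ : (𝓞 k)ˣ) : 𝓞 k) * u.2), ((ε⁻¹ : (𝓞 k)ˣ) : 𝓞 k) * u.2))
    (fun u => by
      refine Prod.ext ?_ ?_
      · simp only [Units.inv_mul_cancel_left]
        ring
      · simp only [Units.inv_mul_cancel_left])
    (fun u => by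
      refine Prod.ext ?_ ?_
      · simp only
        ring
      · simp only [Units.mul_inv_cancel_left])
    (fun c u => by
      refine Prod.ext ?_ ?_
      · simp only [Prod.smul_fst, Prod.smul_snd, smul_eq_mul]
        ring
      · simp only [Prod.smul_snd, smul_eq_mul]
        ring)
    (fun c u => by
      refine Prod.ext ?_ ?_
      · simp only [Prod.smul_fst, Prod.smul_snd, smul_eq_mul]
        ring
      · simp only [Prod.smul_snd, smul_eq_mul]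
        ring)
    (fun u hu => by
      obtain ⟨h1, h2⟩ := Submodule.mem_prod.1 hu
      refine Submodule.mem_prod.2 ⟨?_, ?_⟩
      · refine Ideal.add_mem _ h1 ?_
        rw [mul_comm r]
        exact Ideal.mul_mem_mul h2 hr
      · exact Ideal.mul_mem_left _ _ h2)
    (fun u hu => by
      obtain ⟨h1, h2⟩ := Submodule.mem_prod.1 hu
      refine Submodule.mem_prod.2 ⟨?_, ?_⟩
      · refine Ideal.sub_mem _ h1 ?_
        rw [mul_comm r]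
        exact Ideal.mul_mem_mul (Ideal.mul_mem_left _ _ h2) hr
      · exact Ideal.mul_mem_left _ _ h2)
  refine ⟨e, fun b D u => ?_⟩
  obtain ⟨η, hη⟩ := he u
  rw [← qd_unit b D η (e u : V2 k), hη]
  unfold qd
  refine Finset.prod_congr rfl fun v _ => ?_
  have h1 : (((u : V2 k).1 + r * (u : V2 k).2 : 𝓞 k) : k) =
      ((u : V2 k).1 : k) + (r : k) * ((u : V2 k).2 : k) := by
    simp
  have h2 : (((ε : 𝓞 k) * (u : V2 k).2 : 𝓞 k) : k) =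
      ((ε : 𝓞 k) : k) * ((u : V2 k).2 : k) := by
    simp
  simp only
  rw [h1, h2, map_add, map_mul, map_mul]
  ring

end Pool.Agent.H33.NVE_EPQ
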