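import Pool.Agent.H61.NVK.TargetsE2

/-!
# Row E_T2E: the theta functions of the lattice and of its dual
-/

set_option autoImplicit false

open MeasureTheory Set Filter NumberField NumberField.InfinitePlace
open Pool.Agent.H65.CM4 Pool.Agent.H61.CM4 Pool.Agent.H61.NVK
open scoped Real nonZeroDivisors

namespace Pool.Agent.H33.NVE_T2E

section

variable {k : Type} [Field k] [NumberField k]

theorem trQ (L : ℕ) (x w : 𝓞 k) :
    Algebra.trace ℚ k ((x : k) / (L : k) * (w : k)) =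
      ((Algebra.trace ℤ (𝓞 k) (x * w) : ℤ) : ℚ) / (L : ℚ) := by
  have h1 : (x : k) / (L : k) * (w : k) = ((L : ℚ)⁻¹) • (((x * w : 𝓞 k)) : k) := by
    rw [Algebra.smul_def]
    have h2 : (((x * w : 𝓞 k)) : k) = (x : k) * (w : k) := by simp
    rw [h2, map_inv₀, map_natCast]
    ring
  rw [h1, map_smul, smul_eq_mul, Algebra.coe_trace_int]
  ring

theorem mem_dF (L : ℕ) (hL : 0 < L) (J : Ideal (𝓞 k)) (hJ : iF J ≠ 0) (x : 𝓞 k) :
    (x : k) / (L : k) ∈ dF (iF J) ↔ ∀ w ∈ J, ((L : ℕ) : ℤ) ∣ Algebra.trace ℤ (𝓞 k) (x * w) := by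
  have hLQ : (L : ℚ) ≠ 0 := by
    exact_mod_cast hL.ne'
  unfold dF Pool.Agent.H25.HK.du
  rw [FractionalIdeal.mem_dual hJ]
  constructor
  · intro h w hw
    have h1 := h (w : k) ((FractionalIdeal.mem_coeIdeal _).2 ⟨w, hw, rfl⟩)
    rw [Algebra.traceForm_apply] at h1
    obtain ⟨z, hz⟩ := h1
    rw [trQ L] at hz
    have h2 : ((z : ℤ) : ℚ) = ((Algebra.trace ℤ (𝓞 k) (x * w) : ℤ) : ℚ) / (L : ℚ) := hz
    rw [eq_div_iff hLQ] at h2
    refine ⟨z, ?_⟩
    have h3 : ((z * (L : ℤ) : ℤ) : ℚ) = ((Algebra.trace ℤ (𝓞 k) (x * w) : ℤ) : ℚ) := by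
      rw [← h2]
      push_cast
      ring
    have h4 : z * (L : ℤ) = Algebra.trace ℤ (𝓞 k) (x * w) := by exact_mod_cast h3
    rw [← h4, mul_comm]
  · intro h b hb
    obtain ⟨w, hw, rfl⟩ := (FractionalIdeal.mem_coeIdeal _).1 hb
    obtain ⟨z, hz⟩ := h w hw
    rw [Algebra.traceForm_apply]
    refine ⟨z, ?_⟩
    have h2 : ((z : ℤ) : ℚ) = Algebra.trace ℚ k ((x : k) / (L : k) * (w : k)) := by
      rw [trQ L, hz, eq_div_iff hLQ]
      push_cast
      ring
    exact h2

end

section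

variable {k : Type} [Field k] [NumberField k] [IsTotallyReal k]

theorem sumE (L : ℕ) (hL : 0 < L) (I J : Pool.Agent.H25.HK.FI k) (hI : Dn L I) (hJ : Dn L J)
    (M : La k) (hM : ∀ u : V2 k, u ∈ M ↔ ((u.1 : k) / (L : k) ∈ I ∧ (u.2 : k) / (L : k) ∈ J))
    (x y c : Pl k → ℝ) (hy : ∀ v, 0 < y v) :
    th2 M x y (fun v => c v - 2 * Real.log (L : ℝ)) = T2 I J x y c := by
  classical
  have hLk : (L : k) ≠ 0 := by
    exact_mod_cast hL.ne'
  have hLR : (0 : ℝ) < (L : ℝ) := by exact_mod_cast hL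
  have hinj : Function.Injective (fun u : V2 k => (((u.1 : k) / (L : k), (u.2 : k) / (L : k)) :
      k × k)) := by
    intro u w huw
    simp only [Prod.mk.injEq] at huw
    obtain ⟨h1, h2⟩ := huw
    rw [div_left_inj' hLk] at h1 h2
    exact Prod.ext (RingOfIntegers.ext h1) (RingOfIntegers.ext h2)
  unfold T2
  rw [← hinj.tsum_eq]
  · unfold th2
    refine tsum_congr fun u => ?_
    by_cases hu : u ∈ M
    · rw [if_pos hu, if_pos ((hM u).1 hu)]
      congr 1
      unfold qs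
      rw [Finset.mul_sum, Finset.mul_sum]
      refine Finset.sum_congr rfl fun v _ => ?_
      unfold qr
      simp only
      rw [map_div₀, map_div₀, map_natCast, Real.exp_sub]
      have h3 : Real.exp (2 * Real.log (L : ℝ)) = (L : ℝ) ^ 2 := by
        rw [two_mul, Real.exp_add, Real.exp_log hLR]
        ring
      rw [h3]
      have h4 := (hy v).ne'
      have h5 := hLR.ne'
      field_simp
    · rw [if_neg hu, if_neg (fun h => hu ((hM u).2 h))]
  · intro p hp
    rw [Function.mem_support] at hp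
    by_cases h : p.1 ∈ I ∧ p.2 ∈ J
    · obtain ⟨y1, h1⟩ := hI p.1 h.1
      obtain ⟨y2, h2⟩ := hJ p.2 h.2
      refine ⟨(y1, y2), ?_⟩
      refine Prod.ext ?_ ?_
      · simp only
        rw [h1, mul_div_cancel_left₀ _ hLk]
      · simp only
        rw [h2, mul_div_cancel_left₀ _ hLk]
    · exact absurd (if_neg h) hp

end

theorem pf_T2E (hFRI : T_FRI) : T_T2E := by
  intro k _ _ _ a B x y c hy
  obtain ⟨ha, haB, -, -, -, -, hcc, -, -, hDm, hd1, hd2, hd3, hd4⟩ := hFRI k a B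
  refine ⟨?_, ?_⟩
  · have h := sumE 1 one_pos (iF ((a : Ideal (𝓞 k)) * (B : Ideal (𝓞 k)))) (iF (a : Ideal (𝓞 k)))
      hd2 hd1 (Lb (a : Ideal (𝓞 k)) B) (fun u => by
        rw [Nat.cast_one, div_one, div_one]
        have hmem : ∀ (Q : Ideal (𝓞 k)) (z : 𝓞 k), z ∈ Q ↔ (z : k) ∈ iF Q := by
          intro Q z
          constructor
          · intro hz
            exact (FractionalIdeal.mem_coeIdeal _).2 ⟨z, hz, rfl⟩
          · intro hz
            obtain ⟨w, hw, hwz⟩ := (FractionalIdeal.mem_coeIdeal _).1 hz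
            rwa [← RingOfIntegers.ext hwz]
        rw [← hmem, ← hmem]
        exact Submodule.mem_prod) x y c hy
    rw [← h]
    congr 1
    funext v
    simp
  · have hpos : 0 < Dm (Lb (a : Ideal (𝓞 k)) B) := by
      have h1 : (0 : ℝ) < (Dm (Lb (a : Ideal (𝓞 k)) B) : ℝ) := by
        rw [hDm]
        exact mul_pos (hcc _ ha).2.1 (hcc _ haB).2.1
      exact_mod_cast h1
    refine sumE (Dm (Lb (a : Ideal (𝓞 k)) B)) hpos _ _ hd3 hd4 _ (fun u => ?_) x y c hy
    rw [mem_dF _ hpos _ ha, mem_dF _ hpos _ haB]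
    constructor
    · intro h
      constructor
      · intro w hw
        have h1 := h (0, w) (Submodule.mem_prod.2 ⟨Submodule.zero_mem _, hw⟩)
        have h2 : det u ((0, w) : V2 k) = u.1 * w := by
          unfold det
          simp
        rwa [h2] at h1
      · intro w hw
        have h1 := h (w, 0) (Submodule.mem_prod.2 ⟨hw, Submodule.zero_mem _⟩)
        have h2 : det u ((w, 0) : V2 k) = -(u.2 * w) := by
          unfold det
          simp
        rw [h2, map_neg, dvd_neg] at h1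
        exact h1
    · rintro ⟨h1, h2⟩ v hv
      obtain ⟨hv1, hv2⟩ := Submodule.mem_prod.1 hv
      have h3 := h1 v.2 hv2
      have h4 := h2 v.1 hv1
      have h5 : det u v = u.1 * v.2 - u.2 * v.1 := rfl
      rw [h5, map_sub]
      exact dvd_sub h3 h4

end Pool.Agent.H33.NVE_T2E
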